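import Pool.Agent.P.MP_9bbf37_lc.Defs
import Pool.Agent.P.MP_9bbf37_lc.Upper

open Pool.Agent.P.MP_9bbf37_lc

/-- The comparative ratio of paging with lookahead `i` against lookahead `l` is
`min k (⌊l / (i + 1)⌋ + 1)`. -/
theorem Pool.Agent.Results.MP_9bbf37_lc.Formula.result
    (P : Type) [DecidableEq P] (k : ℕ) (hk : 1 ≤ k) (hP : ∃ S : Finset P, S.card = k + 1)
    (I : Set (Finset P)) (hI : I.Nonempty) (hIk : ∀ C ∈ I, C.card ≤ k) (i l : ℕ) :
    compRatio k I (Look P i) (Look P l) = ((min k (l / (i + 1) + 1) : ℕ) : EReal) :=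
  compRatio_eq k hk hP I hI hIk i l
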