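import Pool.Agent.P.MP_9bbf37_lc.Defs
import Pool.Agent.P.MP_9bbf37_lc.Upper

open Pool.Agent.P.MP_9bbf37_lc

/-- For every memory size, extra lookahead need not lower the comparative ratio:
`c(L 1, L 3) = c(L 2, L 3)`. -/
theorem Pool.Agent.Results.MP_9bbf37_lc.NotStrict.result
    (P : Type) [DecidableEq P] (k : ℕ) (hk : 1 ≤ k) (hP : ∃ S : Finset P, S.card = k + 1)
    (I : Set (Finset P)) (hI : I.Nonempty) (hIk : ∀ C ∈ I, C.card ≤ k) :
    ∃ i j l : ℕ, i < j ∧ j < l ∧ l ≤ 3 ∧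
      compRatio k I (Look P i) (Look P l) = compRatio k I (Look P j) (Look P l) :=
  ⟨1, 2, 3, by omega, by omega, le_rfl, by
    rw [compRatio_eq k hk hP I hI hIk, compRatio_eq k hk hP I hI hIk]⟩
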